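import Pool.Agent.MP_826def_gt.MU.Alg
import Pool.Agent.MP_826def_gt.H44.Up

/-! The asymptotic count from the absence of odd maps. -/

namespace Pool.Agent.MP_826def_gt.BI

open Set Filter Topology Pool.Agent.MP_826def_gt.MU

theorem sum_ex {r : ℕ} {i₀ i₁ : Fin r} (h : i₀ ≠ i₁) (j : ℕ) : ∑ i, ex i₀ i₁ j i = r * j := by
  have e : ∀ i, ex i₀ i₁ j i + (if i = i₀ then j else 0) = j + if i = i₁ then j else 0 := by
    intro i
    unfold ex
    by_cases a : i = i₀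
    · have b : i ≠ i₁ := a ▸ h
      simp [a, h]
    · by_cases b : i = i₁
      · simp only [if_neg a, if_pos b]
        omega
      · simp [a, b]
  have := Finset.sum_congr rfl fun i (_ : i ∈ Finset.univ) => e i
  simp only [Finset.sum_add_distrib, Finset.sum_ite_eq', Finset.mem_univ, if_true, Finset.sum_const,
    Finset.card_univ, Fintype.card_fin, smul_eq_mul] at this
  omega

theorem cov_of_le {E B : Type} [TopologicalSpace E] [TopologicalSpace B] {f : C(E, B)} {n : ℕ}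
    (h : H44.secat f ≤ n) : ∃ m ≤ n, H44.Cov f m := by
  by_contra hc
  have : ((n + 1 : ℕ) : ℕ∞) ≤ H44.secat f := le_iInf₂ fun m hm =>
    Nat.cast_le.2 (not_le.1 fun e => hc ⟨m, e, hm⟩)
  exact absurd (Nat.cast_le.1 (this.trans h)) (by omega)

theorem log_lim : Tendsto (fun n : ℕ => ((Nat.log 2 (2 * n) : ℕ) : ℝ) / n) atTop (𝓝 0) := by
  have h1 : Tendsto (fun x : ℝ => Real.log x / x) atTop (𝓝 0) :=
    Real.isLittleO_log_id_atTop.tendsto_div_nhds_zero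
  have h2 : Tendsto (fun n : ℕ => (2 * n : ℝ)) atTop atTop :=
    tendsto_natCast_atTop_atTop.const_mul_atTop two_pos
  have h3 := (h1.comp h2).const_mul (2 / Real.log 2)
  rw [mul_zero] at h3
  refine squeeze_zero' (Eventually.of_forall fun n => by positivity) ?_ h3
  filter_upwards [eventually_gt_atTop 0] with n hn
  have h4 : (0 : ℝ) < n := Nat.cast_pos.2 hn
  have h5 : 0 < Real.log 2 := Real.log_pos one_lt_two
  have h6 := Real.natLog_le_logb (2 * n) 2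
  rw [Real.logb] at h6
  push_cast at h6
  calc ((Nat.log 2 (2 * n) : ℕ) : ℝ) / n ≤ Real.log (2 * n) / Real.log 2 / n := by gcongr
    _ = _ := by
      simp only [Function.comp_apply]
      field_simp

theorem err_lim (a b : ℕ) :
    Tendsto (fun n : ℕ => ((a * (1 + Nat.log 2 (2 * n)) + b : ℕ) : ℝ) / n) atTop (𝓝 0) := by
  have h1 := tendsto_one_div_atTop_nhds_zero_nat (𝕜 := ℝ)
  have h2 := ((h1.add log_lim).const_mul (a : ℝ)).add (h1.const_mul (b : ℝ))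
  simp only [add_zero, mul_zero] at h2
  refine h2.congr fun n => ?_
  push_cast
  ring

theorem bound (hT : S_TC) (hN : S_NoSec) (G : Type) [Group G] [Fintype G]
    (hG : Even (Fintype.card G)) {r : ℕ} (hr : 2 ≤ r) : ∃ c : ℕ, ∀ n : ℕ,
      4 * r * c * (1 + Nat.log 2 (2 * n)) + 4 ≤ n → ∃ B : ℕ,
        r * B ≤ n + r * ((4 * r + 2) * c * (1 + Nat.log 2 (2 * n)) + 4) ∧
          ∀ k : ℕ, H44.TC r (H44.BG G k) ≤ n → k ≤ B := by
  have := Fact.mk Nat.prime_two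
  obtain ⟨τ, hτ⟩ := exists_prime_orderOf_dvd_card 2 hG.two_dvd
  have t1 : τ ≠ 1 := fun e => by simp [e] at hτ
  have t2 : τ * τ = 1 := by rw [← pow_two, ← hτ, pow_orderOf_eq_one]
  have hi : (⟨0, by omega⟩ : Fin r) ≠ ⟨1, by omega⟩ := by simp
  obtain ⟨c, hc⟩ := hN r _ _ hi
  refine ⟨c, fun n hn => ?_⟩
  obtain ⟨s, hs⟩ : ∃ s, s = c * (1 + Nat.log 2 (2 * n)) := ⟨_, rfl⟩
  rw [mul_assoc (4 * r), ← hs] at hn
  rw [mul_assoc (4 * r + 2), ← hs]
  obtain ⟨L, hL⟩ : ∃ L, L = Nat.log 2 (r * s) + 1 := ⟨_, rfl⟩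
  have l1 : r * s < 2 ^ L := hL ▸ Nat.lt_pow_succ_log_self one_lt_two _
  have l2 : 2 ^ L ≤ 2 * (r * s) + 2 := by
    rcases Nat.eq_zero_or_pos (r * s) with e | e
    · simp [hL, e]
    · have := Nat.pow_log_le_self 2 e.ne'
      rw [hL, pow_succ]
      omega
  obtain ⟨q, hq⟩ : ∃ q, q = n / (2 * r * 2 ^ L) := ⟨_, rfl⟩
  have p0 : 0 < 2 * r * 2 ^ L := by positivity
  have q1 : 2 * r * 2 ^ L * q ≤ n := hq ▸ Nat.mul_div_le _ _
  have q2 : n < 2 * r * 2 ^ L * (q + 1) := hq ▸ Nat.lt_mul_div_succ _ p0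
  have q3 : 2 * (2 ^ L * (q + 1)) ≤ 2 * n := by
    refine Nat.le_of_mul_le_mul_left ?_ (show 0 < r by omega)
    have : r * (2 * 2 ^ L) ≤ r * n := Nat.mul_le_mul_left _ (by nlinarith)
    nlinarith
  have h1 := hc L (q + 1) s (by omega) l1
    (hs ▸ Nat.mul_le_mul_left _ (Nat.add_le_add_left (Nat.log_mono_right q3) _))
  refine ⟨2 * (2 ^ L * (q + 1) + s), ?_, fun k hk => ?_⟩
  · have : r * 2 ^ L ≤ r * (2 * (r * s) + 2) := Nat.mul_le_mul_left _ l2
    nlinarith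
  · by_contra hB
    obtain ⟨m, hm, hm'⟩ := cov_of_le hk
    refine h1 (hT G τ t1 t2 r _ _ k m _ (by simp [ex]) (by omega) ?_ hm')
    rw [sum_ex hi]
    nlinarith

theorem sFinalOf : S_FinalOf := by
  classical
  intro hT hN G _ _ hG r hr
  obtain ⟨c, hc⟩ := bound hT hN G hG hr
  have h0 : (0 : ℝ) < r := Nat.cast_pos.2 (by omega)
  have h1 : ∀ᶠ n : ℕ in atTop, 4 * r * c * (1 + Nat.log 2 (2 * n)) + 4 ≤ n := by
    filter_upwards [(err_lim (4 * r * c) 4).eventually_lt_const one_pos, eventually_gt_atTop 0]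
      with n h hn
    rw [div_lt_one (Nat.cast_pos.2 hn)] at h
    exact (Nat.cast_lt.1 h).le
  have h2 := (err_lim ((4 * r + 2) * c) 4).const_add (1 / (r : ℝ))
  rw [add_zero] at h2
  refine tendsto_of_tendsto_of_tendsto_of_le_of_le' (H44.div_lim hr) h2 ?_ ?_ <;>
    filter_upwards [h1, eventually_gt_atTop 0] with n h hn <;>
    obtain ⟨B, b1, b2⟩ := hc n h <;>
    have b3 : {k : ℕ | 1 ≤ k ∧ H44.TC r (H44.BG G k) ≤ n} ⊆ Icc 1 B :=
      fun k hk => ⟨hk.1, b2 k hk.2⟩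
  · have : Icc 1 (n / r) ⊆ {k : ℕ | 1 ≤ k ∧ H44.TC r (H44.BG G k) ≤ n} := fun k hk =>
      ⟨hk.1, (iInf₂_le (r * k) (H44.upper r k)).trans (Nat.cast_le.2
        ((Nat.mul_le_mul_left r hk.2).trans (Nat.mul_div_le _ _)))⟩
    have e := ncard_le_ncard this ((finite_Icc 1 B).subset b3)
    rw [ncard_eq_toFinset_card', toFinset_Icc, Nat.card_Icc, Nat.add_sub_cancel] at e
    have e' : ((n / r : ℕ) : ℝ) ≤ H44.alpha G r n := Nat.cast_le.2 e
    gcongr
  · have e := ncard_le_ncard b3 (finite_Icc 1 B)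
    rw [ncard_eq_toFinset_card' (Icc 1 B), toFinset_Icc, Nat.card_Icc, Nat.add_sub_cancel] at e
    have e1 : (H44.alpha G r n : ℝ) ≤ B := Nat.cast_le.2 e
    have h4 : (0 : ℝ) < n := Nat.cast_pos.2 hn
    obtain ⟨E, hE⟩ : ∃ E, E = (4 * r + 2) * c * (1 + Nat.log 2 (2 * n)) + 4 := ⟨_, rfl⟩
    rw [← hE] at b1 ⊢
    have e2 : (r : ℝ) * B ≤ n + r * E := by exact_mod_cast b1
    rw [div_add_div _ _ h0.ne' h4.ne', div_le_div_iff₀ h4 (mul_pos h0 h4)]
    nlinarith [mul_le_mul_of_nonneg_left e1 h0.le]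

end Pool.Agent.MP_826def_gt.BI
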