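import Pool.Agent.MP_826def_gt.H44.Geo
import Pool.Agent.MP_826def_gt.MU.Alg

/-! From a cover with homotopy sections of the diagonal to odd maps on products of spheres. -/

namespace Pool.Agent.MP_826def_gt.BI

open Set Filter Topology Pool.Agent.MP_826def_gt.H44 Pool.Agent.MP_826def_gt.MU

/-- A sign on the group that changes under left and right multiplication by an involution. -/
theorem exists_sign {G : Type} [Group G] [Fintype G] {τ : G} (h1 : τ ≠ 1) (h2 : τ * τ = 1) :
    ∃ ψ : G → ℝ, (∀ y, ψ y ≠ 0) ∧ (∀ y, ψ (τ * y) = -ψ y) ∧ ∀ y, ψ (y * τ) = -ψ y := by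
  classical
  have hl : ∀ y, τ * (τ * y) = y := fun y => by rw [← mul_assoc, h2, one_mul]
  have hr : ∀ y, y * τ * τ = y := fun y => by rw [mul_assoc, h2, mul_one]
  let e : G → ℕ := fun g => Fintype.equivFin G g
  have he : Function.Injective e := fun a b h => (Fintype.equivFin G).injective (Fin.ext h)
  let μ : G → ℝ := fun y => min (e y) (e (τ * y * τ))
  refine ⟨fun y => μ y - μ (τ * y), fun y h => ?_, fun y => ?_, fun y => ?_⟩
  · have h3 : min (e y) (e (τ * y * τ)) = min (e (τ * y)) (e (τ * (τ * y) * τ)) := by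
      have := sub_eq_zero.1 h
      simp only [μ] at this
      exact_mod_cast this
    rw [hl] at h3
    have a1 : y ≠ τ * y := fun h => h1 (by simpa using h.symm)
    have a2 : y ≠ y * τ := fun h => h1 (by simpa using h.symm)
    have a3 : τ * y * τ ≠ τ * y := fun h => h1 (by simpa using h)
    have a4 : τ * y * τ ≠ y * τ := fun h => h1 (by simpa using h)
    rcases min_choice (e y) (e (τ * y * τ)) with b | b <;>
      rcases min_choice (e (τ * y)) (e (y * τ)) with c | c <;> rw [b, c] at h3
    exacts [a1 (he h3), a2 (he h3), a3 (he h3), a4 (he h3)]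
  · simp only [hl, neg_sub]
  · have b1 : μ (y * τ) = μ (τ * y) := by
      simp only [μ, ← mul_assoc, hr, h2, one_mul, min_comm]
    have b2 : μ (τ * (y * τ)) = μ y := by
      simp only [μ, ← mul_assoc, hr, h2, one_mul, min_comm]
    simp only [b1, b2, neg_sub]

/-- An odd map from the sphere to the join. -/
theorem exists_map {G : Type} [Group G] [Fintype G] {τ : G} (h2 : τ * τ = 1)
    {N k : ℕ} (hN : 2 * N ≤ k + 1) :
    ∃ e : Sp N → EG G k, Continuous e ∧ ∀ u, e (-u) = τ • e u := by
  classical
  obtain ⟨L, hL⟩ : ∃ L : (Fin N → ℂ) →ₗ[ℝ] (Fin (k + 1) → ℝ), Function.Injective L := by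
    refine Module.Free.exists_linearMap_injective_of_linearIndependent_of_rank_le
      (Pi.basisFun ℝ (Fin (k + 1))).linearIndependent ?_
    rw [← Module.finrank_eq_rank, Module.finrank_pi_fintype, Cardinal.mk_fin]
    simp only [Complex.finrank_real_complex, Finset.sum_const, Finset.card_univ, Fintype.card_fin,
      smul_eq_mul, Nat.cast_le]
    omega
  have hc : Continuous L := L.continuous_of_finiteDimensional
  let S : Sp N → ℝ := fun u => ∑ l, |L u.1 l|
  have hS : ∀ u, 0 < S u := fun u => by
    have h0 : L u.1 ≠ 0 := fun h => ne_zero_of_mem_unit_sphere u (hL (h.trans L.map_zero.symm))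
    obtain ⟨l, hl⟩ := Function.ne_iff.1 h0
    exact Finset.sum_pos' (fun _ _ => abs_nonneg _) ⟨l, Finset.mem_univ _, abs_pos.2 hl⟩
  have hSc : Continuous S := continuous_finsetSum _ fun l _ =>
    ((continuous_apply l).comp (hc.comp continuous_subtype_val)).abs
  let w : Sp N → Fin (k + 1) × G → ℝ := fun u x =>
    ((if x.2 = 1 then max (L u.1 x.1) 0 else 0) + if x.2 = τ then max (-L u.1 x.1) 0 else 0) / S u
  have hi : τ⁻¹ = τ := inv_eq_of_mul_eq_one_right h2
  refine ⟨fun u => ⟨w u, ⟨fun x => div_nonneg (add_nonneg ?_ ?_) (hS u).le, ?_⟩,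
    fun i g h hg hh => ?_⟩, Continuous.subtype_mk (continuous_pi fun x => ?_) _, fun u => ?_⟩
  · split_ifs
    exacts [le_max_right _ _, le_rfl]
  · split_ifs
    exacts [le_max_right _ _, le_rfl]
  · simp only [w, ← Finset.sum_div]
    rw [div_eq_one_iff_eq (hS u).ne', Fintype.sum_prod_type]
    refine Finset.sum_congr rfl fun l _ => ?_
    simp only [Finset.sum_add_distrib, Finset.sum_ite_eq', Finset.mem_univ, if_true]
    exact max_zero_add_max_neg_zero_eq_abs_self _
  · have key : ∀ g, w u (i, g) ≠ 0 → g = if 0 ≤ L u.1 i then 1 else τ := fun g hg => by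
      by_contra hn
      refine hg (div_eq_zero_iff.2 (Or.inl ?_))
      split_ifs at hn with h0
      · rw [if_neg hn, max_eq_right (neg_nonpos.2 h0), ite_self, add_zero]
      · rw [if_neg hn, max_eq_right (not_le.1 h0).le, ite_self, add_zero]
    exact (key g hg).trans (key h hh).symm
  · have c1 : Continuous fun u : Sp N => L u.1 x.1 :=
      (continuous_apply x.1).comp (hc.comp continuous_subtype_val)
    refine Continuous.div (Continuous.add ?_ ?_) hSc fun u => (hS u).ne'
    · split_ifs
      exacts [c1.max continuous_const, continuous_const]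
    · split_ifs
      exacts [c1.neg.max continuous_const, continuous_const]
  · refine Subtype.ext (funext fun ⟨l, g⟩ => ?_)
    change w (-u) (l, g) = w u (l, τ⁻¹ * g)
    rw [hi]
    have e1 : τ * g = 1 ↔ g = τ := by rw [mul_eq_one_iff_inv_eq, hi, eq_comm]
    have e2 : τ * g = τ ↔ g = 1 := mul_eq_left
    simp only [w, S, e1, e2, coe_neg_sphere, map_neg, Pi.neg_apply, abs_neg, neg_neg, add_comm]

theorem sTC : S_TC := by
  classical
  intro G _ _ τ h1 h2 r i₀ N k n m _ hN hn ⟨U, hU, hc, hs⟩
  obtain ⟨ψ, p0, p1, p2⟩ := exists_sign h1 h2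
  obtain ⟨e, ec, eo⟩ := exists_map h2 hN
  have hi : τ⁻¹ = τ := inv_eq_of_mul_eq_one_right h2
  choose s hs using hs
  choose φ f1 f2 using fun j => lift_phi i₀ (hU j) (s j) (hs j)
  obtain ⟨ρ, hρ⟩ := PartitionOfUnity.exists_isSubordinate isClosed_univ U hU hc.ge
  let g : Fin (n + 1) → Fin r → (Fin r → EG G k) → ℝ := fun j i x => ρ j (prj x) * ψ (φ j x i)
  have gc : ∀ j i, Continuous (g j i) := fun j i => continuous_iff_continuousAt.2 fun x => by
    have c0 : Continuous fun x : Fin r → EG G k => ρ j (prj x) := (ρ j).continuous.comp prj_cont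
    by_cases hx : prj x ∈ U j
    · refine (c0.continuousAt.mul (continuousAt_const (y := ψ (φ j x i)))).congr ?_
      filter_upwards [(f1 j (φ j x)).mem_nhds ⟨hx, rfl⟩] with y hy
      simp only [g, hy.2, Pi.mul_apply]
    · refine (continuousAt_const (y := (0 : ℝ))).congr ?_
      filter_upwards [((isClosed_tsupport (ρ j)).isOpen_compl.preimage prj_cont).mem_nhds
        fun h => hx (hρ j h)] with y hy
      simp only [g, image_eq_zero_of_notMem_tsupport hy, zero_mul]
  have go : ∀ j i (ε : Fin r → Bool) x, g j i ((fun i => if ε i then τ else 1) • x) =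
      (if ε i₀ = ε i then 1 else -1) * g j i x := fun j i ε x => by
    by_cases hx : prj x ∈ U j
    · simp only [g, prj_smul, f2 j _ x hx, H44.tw]
      cases ε i₀ <;> cases ε i <;> simp [hi, p1, p2]
    · simp only [g, prj_smul, image_eq_zero_of_notMem_tsupport fun h => hx (hρ j h), zero_mul,
        mul_zero]
  obtain ⟨σ, hσ⟩ : ∃ σ : (Σ i, Fin (m i)) × Bool → Fin (n + 1), Function.Surjective σ := by
    obtain ⟨ι⟩ : Nonempty (Fin (n + 1) ↪ (Σ i, Fin (m i)) × Bool) :=
      Function.Embedding.nonempty_of_card_le (by simpa [mul_comm] using hn)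
    exact ⟨_, Function.invFun_surjective ι.injective⟩
  let E : (Fin r → Sp N) → Fin r → EG G k := fun u i => e (u i)
  have Ec : Continuous E := continuous_pi fun i => ec.comp (continuous_apply i)
  have Eo : ∀ ε u, E (MU.flip ε u) = (fun i => if ε i then τ else 1) • E u := fun ε u =>
    funext fun i => by
      simp only [E, MU.flip, Pi.smul_apply']
      split_ifs
      exacts [eo _, (one_smul _ _).symm]
  refine ⟨fun i c => ⟨fun u => (g (σ (⟨i, c⟩, true)) i (E u) : ℂ) +
    (g (σ (⟨i, c⟩, false)) i (E u) : ℂ) * Complex.I,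
    (Complex.continuous_ofReal.comp ((gc _ _).comp Ec)).add
      ((Complex.continuous_ofReal.comp ((gc _ _).comp Ec)).mul continuous_const)⟩,
    fun i c ε u => ?_, fun u => ?_⟩
  · simp only [ContinuousMap.coe_mk, Eo, go]
    split_ifs <;> push_cast <;> ring
  · obtain ⟨j, hj⟩ := ρ.exists_pos (mem_univ (prj (E u)))
    obtain ⟨⟨⟨i, c⟩, b⟩, rfl⟩ := hσ j
    refine ⟨i, c, fun h => mul_ne_zero hj.ne' (p0 (φ (σ (⟨i, c⟩, b)) (E u) i)) ?_⟩
    change g (σ (⟨i, c⟩, b)) i (E u) = 0
    cases b
    · simpa using congrArg Complex.im h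
    · simpa using congrArg Complex.re h

end Pool.Agent.MP_826def_gt.BI
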